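import Pool.Agent.H73.NK.Targets
import Pool.Agent.H12.PF.MR

/-!
Module SM of the board nk_modules (MP_0cd084_nt): reciprocals of rough numbers, lower bound.
-/

set_option autoImplicit false

open Finset

namespace Pool.Agent.H14.NK

open Pool.Agent.H73.NK

/-- a positive integer is the product of a smooth and of a rough number -/
theorem smooth_rough (M n : ℕ) (hn : n ≠ 0) : ∃ d b : ℕ, n = d * b ∧ d ∈ Nat.smoothNumbers M ∧
    ∀ p : ℕ, p.Prime → p ∣ b → M ≤ p := by
  refine ⟨(n.primeFactorsList.filter (· < M)).prod,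
    (n.primeFactorsList.filter (fun p => ¬ p < M)).prod, ?_,
    Nat.prod_mem_smoothNumbers n M, ?_⟩
  · have h := Multiset.prod_filter_mul_prod_filter_not
      (s := (n.primeFactorsList : Multiset ℕ)) (fun p => p < M)
    rw [Multiset.filter_coe, Multiset.filter_coe, Multiset.prod_coe, Multiset.prod_coe,
      Multiset.prod_coe, Nat.prod_primeFactorsList hn] at h
    exact h.symm
  · intro p hp hpb
    obtain ⟨a, ha, hpa⟩ := (hp.prime.dvd_prod_iff (L := _)).1 hpb
    rw [List.mem_filter] at ha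
    have hap : a.Prime := Nat.prime_of_mem_primeFactorsList ha.1
    have : p = a := (Nat.prime_dvd_prime_iff_eq hp hap).1 hpa
    have h2 := ha.2
    simp only [not_lt, decide_eq_true_eq] at h2
    omega

/-- the inverse function as a monoid homomorphism -/
noncomputable def invHom : ℕ →* ℝ where
  toFun n := 1 / (n : ℝ)
  map_one' := by simp
  map_mul' m n := by
    push_cast
    rw [one_div_mul_one_div]

theorem invHom_apply (n : ℕ) : invHom n = 1 / (n : ℝ) := rfl

/-- the sum of the reciprocals of smooth numbers -/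
theorem smooth_sum (M : ℕ) (D : Finset ℕ) (hD : ∀ d ∈ D, d ∈ Nat.smoothNumbers M) :
    ∑ d ∈ D, (1 : ℝ) / d ≤ ∏ p ∈ M.primesBelow, (1 - 1 / (p : ℝ))⁻¹ := by
  have h1 := (EulerProduct.summable_and_hasSum_smoothNumbers_prod_primesBelow_geometric
    (f := invHom) (fun {p} hp => by
      rw [invHom_apply, Real.norm_eq_abs, abs_of_nonneg (by positivity)]
      have : (1 : ℝ) < p := by exact_mod_cast hp.one_lt
      rw [div_lt_one (by linarith)]
      exact this) M).2
  have h2 : HasSum ((Nat.smoothNumbers M).indicator (fun n : ℕ => (1 : ℝ) / n))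
      (∏ p ∈ M.primesBelow, (1 - 1 / (p : ℝ))⁻¹) := by
    rw [← hasSum_subtype_iff_indicator]
    exact h1
  calc ∑ d ∈ D, (1 : ℝ) / d
      = ∑ d ∈ D, (Nat.smoothNumbers M).indicator (fun n : ℕ => (1 : ℝ) / n) d := by
        refine Finset.sum_congr rfl fun d hd => ?_
        rw [Set.indicator_of_mem (hD d hd)]
    _ ≤ _ := by
        refine sum_le_hasSum D (fun d _ => ?_) h2
        exact Set.indicator_nonneg (fun _ _ => by positivity) d

/-- Mertens' product -/
theorem prod_le : ∃ C : ℝ, 0 < C ∧ ∀ z : ℝ, 2 ≤ z →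
    ∏ p ∈ (⌊z⌋₊ + 1).primesBelow, (1 - 1 / (p : ℝ))⁻¹ ≤ C * Real.log z := by
  obtain ⟨C, hC⟩ := Pool.Agent.H12.PF.mr
  refine ⟨Real.exp (3 / 2 + C) / Real.log 2, by have := Real.log_pos (by norm_num : (1:ℝ) < 2); positivity,
    fun z hz => ?_⟩
  have hl2 : 0 < Real.log 2 := Real.log_pos (by norm_num)
  have hz2 : 2 ≤ ⌊z⌋₊ := Nat.le_floor (by exact_mod_cast hz)
  have h1 := hC 2 ⌊z⌋₊ le_rfl hz2
  -- split
  have h2 : ∑ p ∈ (⌊z⌋₊ + 1).primesBelow, (1 : ℝ) / (p - 1) ≤
      1 / 2 + ∑ q ∈ (Ioc 2 ⌊z⌋₊).filter Nat.Prime, (1 : ℝ) / q + 1 := by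
    have h3 : ∑ p ∈ (⌊z⌋₊ + 1).primesBelow, (1 : ℝ) / (p - 1) =
        ∑ p ∈ (⌊z⌋₊ + 1).primesBelow, (1 : ℝ) / p +
          ∑ p ∈ (⌊z⌋₊ + 1).primesBelow, ((1 : ℝ) / (p - 1) - 1 / p) := by
      rw [← Finset.sum_add_distrib]
      refine Finset.sum_congr rfl fun p _ => by ring
    have h4 : ∑ p ∈ (⌊z⌋₊ + 1).primesBelow, (1 : ℝ) / p ≤
        1 / 2 + ∑ q ∈ (Ioc 2 ⌊z⌋₊).filter Nat.Prime, (1 : ℝ) / q := by
      have : (⌊z⌋₊ + 1).primesBelow ⊆ insert 2 ((Ioc 2 ⌊z⌋₊).filter Nat.Prime) := by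
        intro p hp
        rw [Nat.mem_primesBelow] at hp
        rw [mem_insert, mem_filter, mem_Ioc]
        have := hp.2.two_le
        rcases Nat.lt_or_ge 2 p with h | h
        · exact Or.inr ⟨⟨h, by omega⟩, hp.2⟩
        · exact Or.inl (by omega)
      refine (Finset.sum_le_sum_of_subset_of_nonneg this fun _ _ _ => by positivity).trans ?_
      rw [Finset.sum_insert (by simp)]
      norm_num
    have h5 : ∑ p ∈ (⌊z⌋₊ + 1).primesBelow, ((1 : ℝ) / (p - 1) - 1 / p) ≤ 1 := by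
      have hsub : (⌊z⌋₊ + 1).primesBelow ⊆ Ico 2 (⌊z⌋₊ + 1) := by
        intro p hp
        rw [Nat.mem_primesBelow] at hp
        rw [mem_Ico]
        exact ⟨hp.2.two_le, hp.1⟩
      have hnn : ∀ p ∈ Ico 2 (⌊z⌋₊ + 1), (0 : ℝ) ≤ 1 / ((p : ℝ) - 1) - 1 / p := by
        intro p hp
        rw [mem_Ico] at hp
        have h2p : (2 : ℝ) ≤ p := by exact_mod_cast hp.1
        rw [sub_nonneg]
        exact one_div_le_one_div_of_le (by linarith) (by linarith)
      refine (Finset.sum_le_sum_of_subset_of_nonneg hsub fun p hp _ => hnn p hp).trans ?_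
      have key : ∀ K : ℕ, 1 ≤ K →
          ∑ p ∈ Ico 2 (K + 1), ((1 : ℝ) / ((p : ℝ) - 1) - 1 / p) = 1 - 1 / K := by
        intro K hK
        induction K, hK using Nat.le_induction with
        | base => simp
        | succ K hK ih =>
          rw [Finset.sum_Ico_succ_top (by omega), ih]
          push_cast
          ring
      rw [key _ (by omega)]
      have : (0 : ℝ) ≤ 1 / (⌊z⌋₊ : ℝ) := by positivity
      linarith
    rw [h3]
    linarith
  have h6 : ∏ p ∈ (⌊z⌋₊ + 1).primesBelow, (1 - 1 / (p : ℝ))⁻¹ ≤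
      Real.exp (∑ p ∈ (⌊z⌋₊ + 1).primesBelow, (1 : ℝ) / (p - 1)) := by
    rw [Real.exp_sum]
    refine Finset.prod_le_prod (fun p hp => ?_) fun p hp => ?_
    · rw [Nat.mem_primesBelow] at hp
      have : (1 : ℝ) < p := by exact_mod_cast hp.2.one_lt
      have h7 : (1 : ℝ) / p < 1 := by rw [div_lt_one (by linarith)]; exact this
      exact inv_nonneg.2 (by linarith)
    · rw [Nat.mem_primesBelow] at hp
      have h1p : (1 : ℝ) < p := by exact_mod_cast hp.2.one_lt
      have h8 : (1 - 1 / (p : ℝ))⁻¹ = 1 / ((p : ℝ) - 1) + 1 := by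
        have : (p : ℝ) - 1 ≠ 0 := by linarith
        have h0 : (p : ℝ) ≠ 0 := by linarith
        field_simp
        ring
      rw [h8]
      exact Real.add_one_le_exp _
  refine h6.trans ?_
  have hlz : Real.log 2 ≤ Real.log z := Real.log_le_log (by norm_num) hz
  have hlf : Real.log 2 ≤ Real.log ⌊z⌋₊ := Real.log_le_log (by norm_num) (by exact_mod_cast hz2)
  have hfz : Real.log ⌊z⌋₊ ≤ Real.log z := by
    refine Real.log_le_log (by exact_mod_cast (by omega : 0 < ⌊z⌋₊)) ?_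
    exact Nat.floor_le (by linarith)
  calc Real.exp (∑ p ∈ (⌊z⌋₊ + 1).primesBelow, (1 : ℝ) / (p - 1))
      ≤ Real.exp (3 / 2 + C + Real.log (Real.log ⌊z⌋₊ / Real.log 2)) := by
        refine Real.exp_le_exp.2 ?_
        push_cast at h1
        linarith
    _ = Real.exp (3 / 2 + C) * (Real.log ⌊z⌋₊ / Real.log 2) := by
        rw [Real.exp_add, Real.exp_log (div_pos (by linarith) hl2)]
    _ ≤ Real.exp (3 / 2 + C) * (Real.log z / Real.log 2) := by
        gcongr
    _ = Real.exp (3 / 2 + C) / Real.log 2 * Real.log z := by ring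

/-- SM. Reciprocals of rough numbers, lower bound. -/
theorem sm : T_SM := by
  classical
  obtain ⟨C, hC0, hC⟩ := prod_le
  refine ⟨max 1 C, le_max_left _ _, fun z N hz hN => ?_⟩
  have hlz : 0 < Real.log z := Real.log_pos (by linarith)
  set M := ⌊z⌋₊ + 1 with hM
  set D : Finset ℕ := (Icc 1 N).filter (fun d => d ∈ Nat.smoothNumbers M) with hD
  have hS0 : 0 ≤ ∑ b ∈ RN z N, (1 : ℝ) / b := Finset.sum_nonneg fun _ _ => by positivity
  -- decomposition
  have hdec : ∀ n ∈ Icc 1 N, ∃ x : ℕ × ℕ, x ∈ D ×ˢ RN z N ∧ x.1 * x.2 = n := by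
    intro n hn
    rw [mem_Icc] at hn
    obtain ⟨d, b, hdb, hd, hb⟩ := smooth_rough M n (by omega)
    have hn0 : 0 < d * b := by omega
    have hd0 : 0 < d := Nat.pos_of_mul_pos_right hn0 |> fun h => by
      rcases Nat.eq_zero_or_pos d with h' | h'
      · rw [h'] at hn0; simp at hn0
      · exact h'
    have hb0 : 0 < b := by
      rcases Nat.eq_zero_or_pos b with h' | h'
      · rw [h'] at hn0; simp at hn0
      · exact h'
    have hdn : d ≤ n := by rw [hdb]; exact Nat.le_mul_of_pos_right _ hb0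
    have hbn : b ≤ n := by rw [hdb]; exact Nat.le_mul_of_pos_left _ hd0
    refine ⟨(d, b), ?_, hdb.symm⟩
    rw [mem_product]
    constructor
    · rw [hD, mem_filter, mem_Icc]
      exact ⟨⟨hd0, by omega⟩, hd⟩
    · unfold RN
      rw [mem_filter, mem_Icc]
      refine ⟨⟨hb0, by omega⟩, fun p hp hpb => ?_⟩
      have h1 := hb p hp hpb
      have h2 : z < (⌊z⌋₊ : ℝ) + 1 := Nat.lt_floor_add_one z
      have h3 : ((⌊z⌋₊ + 1 : ℕ) : ℝ) ≤ p := by exact_mod_cast h1
      push_cast at h3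
      linarith
  choose! φ hφ1 hφ2 using hdec
  have hinj : Set.InjOn φ (Icc 1 N : Finset ℕ) := by
    intro m hm n hn hmn
    rw [← hφ2 m (by simpa using hm), ← hφ2 n (by simpa using hn), hmn]
  have h1 : ∑ n ∈ Icc 1 N, (1 : ℝ) / n ≤
      (∑ d ∈ D, (1 : ℝ) / d) * ∑ b ∈ RN z N, (1 : ℝ) / b := by
    rw [Finset.sum_mul_sum, ← Finset.sum_product']
    calc ∑ n ∈ Icc 1 N, (1 : ℝ) / n
        = ∑ n ∈ Icc 1 N, (1 : ℝ) / ((φ n).1 : ℝ) * (1 / ((φ n).2 : ℝ)) := by
          refine Finset.sum_congr rfl fun n hn => ?_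
          rw [one_div_mul_one_div, ← Nat.cast_mul, hφ2 n hn]
      _ = ∑ x ∈ (Icc 1 N).image φ, (1 : ℝ) / (x.1 : ℝ) * (1 / (x.2 : ℝ)) := by
          rw [Finset.sum_image hinj]
      _ ≤ _ := by
          refine Finset.sum_le_sum_of_subset_of_nonneg ?_ fun _ _ _ => by positivity
          intro x hx
          rw [mem_image] at hx
          obtain ⟨n, hn, rfl⟩ := hx
          exact hφ1 n hn
  have h2 : Real.log N ≤ ∑ n ∈ Icc 1 N, (1 : ℝ) / n := by
    have h3 := log_add_one_le_harmonic N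
    rw [harmonic_eq_sum_Icc] at h3
    push_cast at h3
    have h4 : Real.log N ≤ Real.log ((N : ℝ) + 1) :=
      Real.log_le_log (by exact_mod_cast hN) (by linarith)
    refine h4.trans (h3.trans (le_of_eq ?_))
    refine Finset.sum_congr rfl fun n _ => by rw [one_div]
  have h3 : ∑ d ∈ D, (1 : ℝ) / d ≤ C * Real.log z := by
    refine (smooth_sum M D fun d hd => ?_).trans (hC z hz)
    rw [hD, mem_filter] at hd
    exact hd.2
  calc Real.log N ≤ _ := h2.trans h1
    _ ≤ (C * Real.log z) * ∑ b ∈ RN z N, (1 : ℝ) / b := by gcongr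
    _ ≤ (max 1 C * Real.log z) * ∑ b ∈ RN z N, (1 : ℝ) / b := by
        gcongr
        exact le_max_right _ _

end Pool.Agent.H14.NK
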