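import Pool.Agent.H73.NK.Targets

/-!
Module WI of the board nk_modules (MP_0cd084_nt): windows with many rough numbers.
-/

set_option autoImplicit false

open Finset

namespace Pool.Agent.H14.NK

open Pool.Agent.H73.NK

theorem log3 : 1 ≤ Real.log 3 := by
  rw [Real.le_log_iff_exp_le (by norm_num)]
  exact (Real.exp_one_lt_d9.trans (by norm_num)).le

/-- an increasing choice of `s` elements of one parity -/
theorem choose_parity (A : Finset ℕ) (s : ℕ) (hs : 2 * s ≤ A.card) :
    ∃ h : Fin s → ℕ, (∀ i, h i ∈ A) ∧ ∀ i j, i < j → h i + 2 ≤ h j := by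
  have h1 : (A.filter Even).card + (A.filter (fun n => ¬ Even n)).card = A.card :=
    Finset.card_filter_add_card_filter_not _
  have key : ∀ B : Finset ℕ, B ⊆ A → (∀ m ∈ B, ∀ n ∈ B, m < n → m + 2 ≤ n) → s ≤ B.card →
      ∃ h : Fin s → ℕ, (∀ i, h i ∈ A) ∧ ∀ i j, i < j → h i + 2 ≤ h j := by
    intro B hB hp hc
    obtain ⟨E, hE, hEc⟩ := Finset.exists_subset_card_eq hc
    refine ⟨fun i => E.orderEmbOfFin hEc i, fun i => hB (hE (E.orderEmbOfFin_mem hEc i)),
      fun i j hij => ?_⟩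
    exact hp _ (hE (E.orderEmbOfFin_mem hEc i)) _ (hE (E.orderEmbOfFin_mem hEc j))
      ((E.orderEmbOfFin hEc).strictMono hij)
  rcases Nat.lt_or_ge (A.filter Even).card s with h | h
  · refine key (A.filter (fun n => ¬ Even n)) (Finset.filter_subset _ _) ?_ (by omega)
    intro m hm n hn hmn
    rw [mem_filter, Nat.not_even_iff] at hm hn
    omega
  · refine key (A.filter Even) (Finset.filter_subset _ _) ?_ h
    intro m hm n hn hmn
    rw [mem_filter, Nat.even_iff] at hm hn
    omega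

/-- the sum over a union -/
theorem biUnion_le (s : Finset ℕ) (t : ℕ → Finset ℕ) (f : ℕ → ℝ) (hf : ∀ a, 0 ≤ f a) :
    ∑ a ∈ s.biUnion t, f a ≤ ∑ i ∈ s, ∑ a ∈ t i, f a := by
  induction s using Finset.induction_on with
  | empty => simp
  | insert i s hi ih =>
    rw [Finset.biUnion_insert, Finset.sum_insert hi]
    have h1 : ∑ a ∈ t i ∪ s.biUnion t, f a + ∑ a ∈ t i ∩ s.biUnion t, f a =
      ∑ a ∈ t i, f a + ∑ a ∈ s.biUnion t, f a := Finset.sum_union_inter
    have h2 : 0 ≤ ∑ a ∈ t i ∩ s.biUnion t, f a := Finset.sum_nonneg fun a _ => hf a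
    linarith

/-- the windows `0, …, J` cover the rough numbers below `exp ((J + 1) l)` -/
theorem cover (z l : ℝ) (hl : 0 < l) (J N : ℕ) (hN : (N : ℝ) < Real.exp ((J + 1) * l)) :
    ∑ b ∈ RN z N, (1 : ℝ) / b ≤ ∑ h ∈ range (J + 1), ∑ a ∈ VW z l h, (1 : ℝ) / a := by
  classical
  have hsub : RN z N ⊆ (range (J + 1)).biUnion (fun h => VW z l h) := by
    intro b hb
    unfold RN at hb
    rw [mem_filter, mem_Icc] at hb
    obtain ⟨⟨hb1, hbN⟩, hbr⟩ := hb
    have hb0 : (0 : ℝ) < b := by exact_mod_cast hb1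
    have hlog : 0 ≤ Real.log b := Real.log_nonneg (by exact_mod_cast hb1)
    rw [mem_biUnion]
    have h1 : (⌊Real.log b / l⌋₊ : ℝ) ≤ Real.log b / l := Nat.floor_le (div_nonneg hlog hl.le)
    have h2 : Real.log b / l < ⌊Real.log b / l⌋₊ + 1 := Nat.lt_floor_add_one _
    rw [le_div_iff₀ hl] at h1
    rw [div_lt_iff₀ hl] at h2
    have h3 : Real.log b < (J + 1) * l := by
      have : (b : ℝ) < Real.exp ((J + 1) * l) := lt_of_le_of_lt (by exact_mod_cast hbN) hN
      rwa [← Real.log_lt_iff_lt_exp hb0] at this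
    refine ⟨⌊Real.log b / l⌋₊, ?_, ?_⟩
    · rw [mem_range]
      have : (⌊Real.log b / l⌋₊ : ℝ) * l < (J + 1) * l := lt_of_le_of_lt h1 h3
      have := lt_of_mul_lt_mul_right this hl.le
      exact_mod_cast this
    · unfold VW
      rw [mem_filter, mem_range]
      refine ⟨?_, ?_, hbr⟩
      · rw [Nat.lt_ceil, ← Real.log_lt_iff_lt_exp hb0]
        exact h2
      · rw [← Real.le_log_iff_exp_le hb0]
        exact h1
  refine (Finset.sum_le_sum_of_subset_of_nonneg hsub fun _ _ _ => by positivity).trans ?_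
  exact biUnion_le _ _ _ fun _ => by positivity

/-- WI. Windows with many rough numbers. -/
theorem wi (hSM : T_SM) (hUP : T_UP) : T_WI := by
  obtain ⟨C₁, hC1, hSM'⟩ := hSM
  have he6 : (17 : ℝ) ≤ Real.exp 6 * 4 := by
    have := Real.add_one_le_exp (6 : ℝ)
    linarith
  have he6p : 0 < Real.exp 6 := Real.exp_pos 6
  refine ⟨4 * C₁ * Real.exp 6, by nlinarith, fun s z hs hz => ?_⟩
  set C : ℝ := 4 * C₁ * Real.exp 6 with hC
  have hC17 : 17 * C₁ ≤ C := by rw [hC]; nlinarith
  have hlz : 1 ≤ Real.log z := log3.trans (Real.log_le_log (by norm_num) hz)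
  set l : ℝ := C * Real.log z with hl
  have hl17 : 17 ≤ l := by rw [hl]; nlinarith
  set J : ℕ := ⌈16 * C₁ * s⌉₊ with hJ
  have hs1 : (1 : ℝ) ≤ s := by exact_mod_cast hs
  have hJ1 : 16 * C₁ * s ≤ J := Nat.le_ceil _
  have hJ2 : (J : ℝ) < 16 * C₁ * s + 1 := Nat.ceil_lt_add_one (by positivity)
  have hCs : C₁ ≤ C₁ * s := by nlinarith
  have hJC : (J : ℝ) ≤ C * s := by nlinarith
  set A : ℕ → ℝ := fun h => ∑ a ∈ VW z l h, (1 : ℝ) / a with hA
  have hA0 : ∀ h, 0 ≤ A h := fun h => Finset.sum_nonneg fun _ _ => by positivity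
  -- upper bound of a window
  have hAup : ∀ h, A h ≤ 2 * C := by
    intro h
    have h1 := hUP z l h (by linarith) (by linarith)
    have h2 : Real.log z * A h ≤ Real.log z * (C + 2) := by
      refine h1.trans ?_
      rw [hl]
      nlinarith
    have h3 := le_of_mul_le_mul_left h2 (by linarith)
    linarith
  -- the sum over all windows
  set N : ℕ := ⌈Real.exp ((J + 1) * l)⌉₊ - 1 with hN
  have hexp : Real.exp (J * l) + 1 ≤ Real.exp ((J + 1) * l) := by
    have h1 : Real.exp ((J + 1) * l) = Real.exp (J * l) * Real.exp l := by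
      rw [← Real.exp_add]; ring_nf
    have h2 : 2 ≤ Real.exp l := by
      have := Real.add_one_le_exp l
      linarith
    have h3 : 1 ≤ Real.exp (J * l) := Real.one_le_exp (by positivity)
    rw [h1]
    nlinarith
  have hceil : Real.exp ((J + 1) * l) ≤ ⌈Real.exp ((J + 1) * l)⌉₊ := Nat.le_ceil _
  have hceil2 : 1 ≤ ⌈Real.exp ((J + 1) * l)⌉₊ := Nat.one_le_ceil_iff.2 (Real.exp_pos _)
  have hN1 : (N : ℝ) + 1 = ⌈Real.exp ((J + 1) * l)⌉₊ := by
    rw [hN]
    push_cast [Nat.cast_sub hceil2]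
    ring
  have hNlt : (N : ℝ) < Real.exp ((J + 1) * l) := by
    have h1 : N < ⌈Real.exp ((J + 1) * l)⌉₊ := by omega
    rwa [Nat.lt_ceil] at h1
  have hNge : Real.exp (J * l) ≤ N := by linarith
  have hN0 : 1 ≤ N := by
    have h3 : 1 ≤ Real.exp (J * l) := Real.one_le_exp (by positivity)
    have : (1 : ℝ) ≤ N := h3.trans hNge
    exact_mod_cast this
  have hlogN : J * l ≤ Real.log N := by
    rw [Real.le_log_iff_exp_le (by exact_mod_cast hN0)]
    exact hNge
  have h4 := hSM' z N (by linarith) hN0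
  have h5 := cover z l (by linarith) J N hNlt
  have h6 : J * C ≤ C₁ * ∑ h ∈ range (J + 1), A h := by
    have h7 : Real.log z * (J * C) ≤ Real.log z * (C₁ * ∑ h ∈ range (J + 1), A h) := by
      calc Real.log z * (J * C) = J * l := by rw [hl]; ring
        _ ≤ Real.log N := hlogN
        _ ≤ _ := h4
        _ ≤ C₁ * Real.log z * ∑ h ∈ range (J + 1), A h := by gcongr
        _ = _ := by ring
    exact le_of_mul_le_mul_left h7 (by linarith)
  -- good windows
  set G : Finset ℕ := (Icc 1 J).filter (fun h => Real.exp 6 ≤ A h) with hG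
  have h8 : ∑ h ∈ range (J + 1), A h ≤ 2 * C + (G.card * (2 * C) + J * Real.exp 6) := by
    rw [Finset.sum_range_succ']
    have h9 : ∑ h ∈ range J, A (h + 1) = ∑ h ∈ Icc 1 J, A h := by
      rw [Finset.range_eq_Ico, Finset.sum_Ico_add' (fun h => A h) 0 J 1]
      rfl
    rw [h9, ← Finset.sum_filter_add_sum_filter_not (Icc 1 J) (fun h => Real.exp 6 ≤ A h)]
    have h10 : ∑ h ∈ (Icc 1 J).filter (fun h => Real.exp 6 ≤ A h), A h ≤ G.card * (2 * C) := by
      rw [← nsmul_eq_mul]
      exact Finset.sum_le_card_nsmul _ _ _ fun h _ => hAup h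
    have h11 : ∑ h ∈ (Icc 1 J).filter (fun h => ¬ Real.exp 6 ≤ A h), A h ≤ J * Real.exp 6 := by
      have h12 : ((Icc 1 J).filter (fun h => ¬ Real.exp 6 ≤ A h)).card ≤ J := by
        refine (Finset.card_filter_le _ _).trans ?_
        rw [Nat.card_Icc]; omega
      refine (Finset.sum_le_card_nsmul _ _ (Real.exp 6) fun h hh => ?_).trans ?_
      · rw [mem_filter] at hh
        linarith [not_le.1 hh.2]
      · rw [nsmul_eq_mul]
        gcongr
    linarith [hAup 0]
  have hcard : 2 * s ≤ G.card := by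
    have h13 : J * C ≤ C₁ * (2 * C + (G.card * (2 * C) + J * Real.exp 6)) :=
      h6.trans (by gcongr)
    -- `C₁ J e^6 = J C / 4`
    have h14 : C₁ * (J * Real.exp 6) = J * C / 4 := by rw [hC]; ring
    have hCp : 0 < C := by linarith
    have h15 : (J : ℝ) * (3 / 4) ≤ C₁ * 2 + C₁ * 2 * G.card := by
      have : C * ((J : ℝ) * (3 / 4)) ≤ C * (C₁ * 2 + C₁ * 2 * G.card) := by nlinarith
      exact le_of_mul_le_mul_left this hCp
    have h16 : C₁ * (12 * s) ≤ C₁ * (2 + 2 * G.card) := by nlinarith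
    have h17 : (12 : ℝ) * s ≤ 2 + 2 * G.card := le_of_mul_le_mul_left h16 (by linarith)
    have h18 : (2 : ℝ) * s ≤ G.card := by linarith
    exact_mod_cast h18
  obtain ⟨h, hh, hgap⟩ := choose_parity G s hcard
  refine ⟨h, fun i => ?_, hgap, fun i => ?_⟩
  · have := hh i
    rw [hG, mem_filter, mem_Icc] at this
    refine ⟨this.1.1, le_trans ?_ hJC⟩
    exact_mod_cast this.1.2
  · have := hh i
    rw [hG, mem_filter, mem_Icc] at this
    exact this.2

end Pool.Agent.H14.NK
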